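import Pool.Agent.H50.Bose.Unstable
import Pool.Agent.H98.Bose2.Classes

/-!
# Instability for three-body potentials which vanish near the origin
-/

set_option autoImplicit false

namespace Pool.Agent.H58.PC

open MeasureTheory Set Pool.Agent.H50.Bose Pool.Agent.H98.Bose2

variable {N : ℕ}

theorem len_le_of_coord {x : Fin 3 → ℝ} {t r : ℝ} (ht : ∀ a, |x a| ≤ t) (htr : 2 * t ≤ r) :
    len x ≤ r := by
  have ht0 : 0 ≤ t := (abs_nonneg _).trans (ht 0)
  unfold len
  rw [Real.sqrt_le_left (by linarith)]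
  have h1 : ∀ a, x a ^ 2 ≤ t ^ 2 := fun a => sq_le_sq' (abs_le.mp (ht a)).1 (abs_le.mp (ht a)).2
  calc ∑ a, x a ^ 2 ≤ ∑ _a : Fin 3, t ^ 2 := Finset.sum_le_sum fun a _ => h1 a
    _ = 3 * t ^ 2 := by simp
    _ ≤ r ^ 2 := by nlinarith

theorem potential_hollow {β w L r : ℝ} (hL : 0 < L) (hLβ : (N : ℝ) ^ β * (2 / L) ≤ 1)
    {V : (Fin 3 → ℝ) → (Fin 3 → ℝ) → ℝ}
    (hV0 : ∀ x y, len x ≤ r → len y ≤ r → V x y = 0)
    (hLs : 2 * ((N : ℝ) ^ (1 / 2 : ℝ) * (2 / L)) ≤ r) {U : (Fin 3 → ℝ) → ℝ}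
    {X : Fin N → Fin 3 → ℝ} (hX : ∀ i a, |X i a| ≤ 1 / L) :
    potential N β U V (W0 w) X = (∑ i, U (X i)) - w * (N : ℝ) ^ (3 * β - 1) * cnt N := by
  have hd : ∀ i j a, |X i a - X j a| ≤ 2 / L := by
    intro i j a
    calc |X i a - X j a| ≤ |X i a| + |X j a| := abs_sub _ _
      _ ≤ 1 / L + 1 / L := add_le_add (hX i a) (hX j a)
      _ = 2 / L := by ring
  have hNβ : 0 ≤ (N : ℝ) ^ β := Real.rpow_nonneg (Nat.cast_nonneg _) _
  have hNs : 0 ≤ (N : ℝ) ^ (1 / 2 : ℝ) := Real.rpow_nonneg (Nat.cast_nonneg _) _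
  have hW : ∀ i j, W0 w ((N : ℝ) ^ β • (X i - X j)) = -w := by
    intro i j
    unfold W0
    rw [if_pos]
    intro a
    rw [Pi.smul_apply, Pi.sub_apply, smul_eq_mul, abs_mul, abs_of_nonneg hNβ]
    exact (mul_le_mul_of_nonneg_left (hd i j a) hNβ).trans hLβ
  have hs : ∀ i j, len ((N : ℝ) ^ (1 / 2 : ℝ) • (X i - X j)) ≤ r := by
    intro i j
    apply len_le_of_coord (t := (N : ℝ) ^ (1 / 2 : ℝ) * (2 / L)) _ hLs
    intro a
    rw [Pi.smul_apply, Pi.sub_apply, smul_eq_mul, abs_mul, abs_of_nonneg hNs]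
    exact mul_le_mul_of_nonneg_left (hd i j a) hNs
  have hV : ∀ i j k, V ((N : ℝ) ^ (1 / 2 : ℝ) • (X i - X j))
      ((N : ℝ) ^ (1 / 2 : ℝ) • (X i - X k)) = 0 := fun i j k => hV0 _ _ (hs i j) (hs i k)
  unfold potential cnt
  simp only [hW, hV, mul_zero, ite_self, Finset.sum_const_zero, add_zero]
  rw [sub_eq_add_neg (∑ i, U (X i)), Finset.mul_sum, ← Finset.sum_neg_distrib]
  congr 1
  apply Finset.sum_congr rfl
  intro i _
  rw [Finset.mul_sum, ← Finset.sum_neg_distrib]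
  apply Finset.sum_congr rfl
  intro j _
  split_ifs <;> ring

/-- Instability for `β ≥ 1/3` if the three-body potential vanishes near the origin. -/
theorem unstable_hollow {β : ℝ} (hβ : 1 / 3 ≤ β) {U : (Fin 3 → ℝ) → ℝ} (hU : IsTrap U)
    {V : (Fin 3 → ℝ) → (Fin 3 → ℝ) → ℝ} (hV : IsThreeBody V) (hh : IsHollow V) :
    ∃ W : (Fin 3 → ℝ) → ℝ, IsPair W ∧ ¬ Stable β U V W := by
  obtain ⟨r, hr, hVr⟩ := hh
  set K : ℝ := 7 + 4 / r with hK
  have hK7 : 7 ≤ K := by
    have : 0 < 4 / r := by positivity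
    linarith
  have hKr : 4 / K ≤ r := by
    rw [div_le_iff₀ (by linarith), hK]
    have : r * (7 + 4 / r) = 7 * r + 4 := by field_simp
    rw [this]
    linarith
  have hm := massB_pos
  have hk := kinB_nonneg
  set κ := kinB / massB with hκ
  have hκ0 : 0 ≤ κ := by positivity
  set w := 4 * (3 * K ^ 2 * κ + 1) with hw
  have hw0 : 0 ≤ w := by positivity
  refine ⟨W0 w, isPair_W0 hw0, ?_⟩
  rintro ⟨C, hC0, hC⟩
  obtain ⟨B, hB⟩ := hU.locBdd 1
  obtain ⟨N, hN⟩ := exists_nat_gt (max 2 (|B| + C))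
  have hN2 : (2 : ℝ) < N := (le_max_left _ _).trans_lt hN
  have hNBC : |B| + C < N := (le_max_right _ _).trans_lt hN
  have hN1 : 1 ≤ N := by
    have : (1 : ℝ) < N := by linarith
    exact_mod_cast this.le
  have hNpos : (0 : ℝ) < N := by linarith
  have hN1' : (1 : ℝ) ≤ N := by linarith
  set γ := max β (1 / 2) with hγ
  have hγ1 : β ≤ γ := le_max_left _ _
  have hγ2 : 1 / 2 ≤ γ := le_max_right _ _
  have hγ3 : 2 * γ ≤ 3 * β := by
    rw [hγ]
    rcases le_total β (1 / 2) with h | h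
    · rw [max_eq_right h]
      linarith
    · rw [max_eq_left h]
      linarith
  set L := K * (N : ℝ) ^ γ with hL
  have hNγ : 1 ≤ (N : ℝ) ^ γ := Real.one_le_rpow hN1' (by linarith)
  have hL7 : 7 ≤ L := by nlinarith
  have hLpos : 0 < L := by linarith
  set t := (N : ℝ) ^ (3 * β - 1) with ht
  have htN : t * (N : ℝ) ^ 2 = (N : ℝ) ^ (3 * β + 1) := by
    rw [ht, ← Real.rpow_natCast, ← Real.rpow_add hNpos]
    congr 1
    push_cast
    ring
  have htpos : 0 < t := Real.rpow_pos_of_pos hNpos _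
  have hLβ : (N : ℝ) ^ β * (2 / L) ≤ 1 := by
    have h1 : (N : ℝ) ^ β ≤ (N : ℝ) ^ γ := Real.rpow_le_rpow_of_exponent_le hN1' hγ1
    rw [mul_div_assoc', div_le_one hLpos]
    nlinarith
  have hLs : 2 * ((N : ℝ) ^ (1 / 2 : ℝ) * (2 / L)) ≤ r := by
    have h1 : (N : ℝ) ^ (1 / 2 : ℝ) ≤ (N : ℝ) ^ γ := Real.rpow_le_rpow_of_exponent_le hN1' hγ2
    have h2 : 2 * ((N : ℝ) ^ (1 / 2 : ℝ) * (2 / L)) = 4 / K * ((N : ℝ) ^ (1 / 2 : ℝ) /
        (N : ℝ) ^ γ) := by
      rw [hL]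
      field_simp
      ring
    have h3 : (N : ℝ) ^ (1 / 2 : ℝ) / (N : ℝ) ^ γ ≤ 1 := (div_le_one (by linarith)).mpr h1
    have h4 : 0 ≤ 4 / K := by positivity
    rw [h2]
    calc 4 / K * ((N : ℝ) ^ (1 / 2 : ℝ) / (N : ℝ) ^ γ) ≤ 4 / K * 1 := by gcongr
      _ ≤ r := by linarith
  set ψ := trial N L with hψ
  have hψt : IsTest N ψ := isTest_trial hLpos
  have hψ1 : ContDiff ℝ 1 ψ := hψt.smooth.of_le (by exact_mod_cast le_top)
  set M := ∫ X, ‖ψ X‖ ^ 2 with hM
  have hMpos : 0 < M := by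
    rw [hM, hψ, trial_mass hLpos]
    apply Finset.prod_pos
    intro p _
    positivity
  have hstab := hC N hN1 ψ hψt
  -- the potential energy
  have hae : ∀ᵐ X : Cfg (Fin N), ∀ i, len (X i) ≤ 1 → |U (X i)| ≤ B := by
    rw [volume_pi]
    rw [Filter.eventually_all]
    intro i
    have hq : Measure.QuasiMeasurePreserving (Function.eval i)
        (Measure.pi fun _ : Fin N => (volume : Measure (Fin 3 → ℝ))) volume :=
      Measure.quasiMeasurePreserving_eval (fun _ : Fin N => (volume : Measure (Fin 3 → ℝ))) i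
    exact hq.ae hB
  have hlen : ∀ X : Cfg (Fin N), (∀ i a, |X i a| ≤ 1 / L) → ∀ i, len (X i) ≤ 1 := by
    intro X hX i
    unfold len
    rw [Real.sqrt_le_one]
    have h1 : ∀ a, X i a ^ 2 ≤ 1 / 49 := by
      intro a
      have h2 : |X i a| ≤ 1 / 7 := by
        refine (hX i a).trans ?_
        exact one_div_le_one_div_of_le (by norm_num) hL7
      have := sq_le_sq' (abs_le.mp h2).1 (abs_le.mp h2).2
      norm_num at this
      linarith
    calc ∑ a, X i a ^ 2 ≤ ∑ _a : Fin 3, (1 / 49 : ℝ) := Finset.sum_le_sum fun a _ => h1 a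
      _ ≤ 1 := by
        simp
        norm_num
  have hUsum : ∀ᵐ X : Cfg (Fin N), ψ X ≠ 0 → |∑ i, U (X i)| ≤ N * |B| := by
    filter_upwards [hae] with X hX hne
    have h1 : ∀ i a, |X i a| ≤ 1 / L := fun i a => trial_supp hLpos hne i a
    calc |∑ i, U (X i)| ≤ ∑ i, |U (X i)| := Finset.abs_sum_le_sum_abs _ _
      _ ≤ ∑ _i : Fin N, |B| := Finset.sum_le_sum fun i _ =>
          (hX i (hlen X h1 i)).trans (le_abs_self B)
      _ = _ := by simp
  have hcnt := two_cnt N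
  have hcnt0 := cnt_nonneg N
  have hpot : ∀ᵐ X : Cfg (Fin N), potential N β U V (W0 w) X * ‖ψ X‖ ^ 2 ≤
      (N * |B| - w * t * cnt N) * ‖ψ X‖ ^ 2 := by
    filter_upwards [hUsum] with X hX
    by_cases hne : ψ X = 0
    · rw [hne]
      simp
    · have h1 : ∀ i a, |X i a| ≤ 1 / L := fun i a => trial_supp hLpos hne i a
      rw [potential_hollow hLpos hLβ hVr hLs h1]
      apply mul_le_mul_of_nonneg_right _ (sq_nonneg _)
      have := (abs_le.mp (hX hne)).2
      rw [← ht]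
      linarith
  have hsq := integrable_sq hψ1.continuous hψt.supp
  have hpi : Integrable fun X : Cfg (Fin N) => potential N β U V (W0 w) X * ‖ψ X‖ ^ 2 := by
    apply (hsq.const_mul (N * |B| + w * t * cnt N)).mono'
    · exact ((measurable_potential hU.measurable hV.measurable
        (isPair_W0 hw0).measurable).mul (by
          have := hψ1.continuous
          fun_prop)).aestronglyMeasurable
    · filter_upwards [hUsum] with X hX
      by_cases hne : ψ X = 0
      · rw [hne]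
        simp
      · have h1 : ∀ i a, |X i a| ≤ 1 / L := fun i a => trial_supp hLpos hne i a
        rw [potential_hollow hLpos hLβ hVr hLs h1, Real.norm_eq_abs, abs_mul,
          abs_of_nonneg (sq_nonneg ‖ψ X‖)]
        apply mul_le_mul_of_nonneg_right _ (sq_nonneg _)
        refine (abs_sub _ _).trans ?_
        have h2 : |w * (N : ℝ) ^ (3 * β - 1) * cnt N| = w * t * cnt N := by
          rw [← ht, abs_of_nonneg (by positivity)]
        rw [h2]
        have := hX hne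
        linarith
  have hkin : ∫ X, grad2 ψ X = 3 * N * (L ^ 2 * κ * M) := by
    unfold grad2
    rw [integral_finsetSum]
    · have h1 : ∀ i : Fin N, ∫ X : Cfg (Fin N), ∑ a : Fin 3,
          ‖fderiv ℝ ψ X (Pi.single i (Pi.single a 1))‖ ^ 2 = 3 * (L ^ 2 * κ * M) := by
        intro i
        rw [integral_finsetSum]
        · have h2 : ∀ a : Fin 3, ∫ X : Cfg (Fin N),
              ‖fderiv ℝ ψ X (Pi.single i (Pi.single a 1))‖ ^ 2 = L ^ 2 * κ * M := fun a =>
            trial_kin hLpos (i, a)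
          simp_rw [h2]
          simp
        · intro a _
          apply Continuous.integrable_of_hasCompactSupport
          · have h1 := hψ1.continuous_fderiv one_ne_zero
            fun_prop
          · have h1 : (fun X => ‖fderiv ℝ ψ X (Pi.single i (Pi.single a 1))‖ ^ 2) =
              (fun L : Cfg (Fin N) →L[ℝ] ℂ => ‖L (Pi.single i (Pi.single a 1))‖ ^ 2) ∘
                (fderiv ℝ ψ) := rfl
            rw [h1]
            exact (hψt.supp.fderiv ℝ).comp_left (by simp)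
      simp_rw [h1]
      simp
      ring
    · intro i _
      apply Continuous.integrable_of_hasCompactSupport
      · have h1 := hψ1.continuous_fderiv one_ne_zero
        fun_prop
      · have h1 : (fun X => ∑ a : Fin 3, ‖fderiv ℝ ψ X (Pi.single i (Pi.single a 1))‖ ^ 2) =
          (fun L : Cfg (Fin N) →L[ℝ] ℂ => ∑ a : Fin 3, ‖L (Pi.single i (Pi.single a 1))‖ ^ 2) ∘
            (fderiv ℝ ψ) := rfl
        rw [h1]
        exact (hψt.supp.fderiv ℝ).comp_left (by simp)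
  have hen : energy N β U V (W0 w) ψ ≤ 3 * N * (L ^ 2 * κ * M) +
      (N * |B| - w * t * cnt N) * M := by
    have h1 : energy N β U V (W0 w) ψ = ∫ X : Cfg (Fin N), (grad2 ψ X +
        potential N β U V (W0 w) X * ‖ψ X‖ ^ 2) := rfl
    have h2 := integral_mono_ae hpi (hsq.const_mul (N * |B| - w * t * cnt N)) hpot
    rw [integral_const_mul, ← hM] at h2
    rw [h1, integral_add (integrable_grad2 hψ1 hψt.supp) hpi, hkin]
    linarith
  have hL2 : (N : ℝ) * L ^ 2 ≤ K ^ 2 * (t * (N : ℝ) ^ 2) := by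
    have h1 : (N : ℝ) * L ^ 2 = K ^ 2 * (N : ℝ) ^ (2 * γ + 1) := by
      rw [hL, mul_pow, ← Real.rpow_natCast ((N : ℝ) ^ γ), ← Real.rpow_mul hNpos.le,
        Real.rpow_add hNpos, Real.rpow_one]
      push_cast
      rw [mul_comm γ 2]
      ring
    rw [h1, htN]
    gcongr
  have htN2 : (N : ℝ) ^ 2 ≤ t * (N : ℝ) ^ 2 := by
    have : 1 ≤ t := Real.one_le_rpow hN1' (by linarith)
    nlinarith [sq_nonneg (N : ℝ)]
  have hc4 : (N : ℝ) ^ 2 ≤ 4 * cnt N := by nlinarith
  have h5 : 3 * N * (L ^ 2 * κ * M) + (N * |B| - w * t * cnt N) * M ≤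
      (N * |B| - N ^ 2) * M := by
    have e1 : 3 * (N : ℝ) * (L ^ 2 * κ * M) = (3 * κ * (N * L ^ 2)) * M := by ring
    rw [e1, ← add_mul]
    apply mul_le_mul_of_nonneg_right _ hMpos.le
    have h6 : 3 * κ * (N * L ^ 2) ≤ 3 * κ * (K ^ 2 * (t * (N : ℝ) ^ 2)) := by gcongr
    have h7 : w * t * (N : ℝ) ^ 2 ≤ w * t * (4 * cnt N) := by gcongr
    have h8 : w * t * (N : ℝ) ^ 2 = 4 * (3 * K ^ 2 * κ + 1) * (t * (N : ℝ) ^ 2) := by
      rw [hw]
      ring
    nlinarith
  have h6 : -C * N * M ≤ (N * |B| - N ^ 2) * M := hstab.trans (hen.trans h5)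
  have h7 : -C * N ≤ N * |B| - N ^ 2 := le_of_mul_le_mul_right h6 hMpos
  nlinarith


end Pool.Agent.H58.PC
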